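import Pool.Agent.H492.UB.Final
import Pool.Graph.R_pool_sql_team_seeded_b0a926ef.R921.GRT.Free
import Pool.Graph.R_pool_sql_team_seeded_3997aac3.H159.LS.Depth

/-!
# The depth graded pieces of the Grothendieck-Teichmüller Lie algebra
-/

set_option autoImplicit false

namespace Pool.Agent.H492.GT

open Pool.Agent.H777R4.DM Pool.Agent.H159.LS Pool.Agent.R921.GRT Pool.Agent.H492.UB Module

attribute [local instance 100] LieRing.ofAssociativeRing

/-- the lowest depth part of an element of `grt_1` satisfies the linearized double shuffle relations -/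
theorem isLS_lead_grt {ψ : A} (h : IsGRT ψ) {r : ℕ} (hr : ∀ u, co ψ u ≠ 0 → r ≤ u.count 1) :
    IsLS (dpart r ψ) := by
  have small : ∀ u, co ψ u ≠ 0 → 3 ≤ u.length ∧ 1 ≤ u.count 1 := fun u hu =>
    ⟨(grt_small h u hu).1, (grt_small h u hu).2.1⟩
  refine isLS_of (LieX_le_KD h.mem r) ?_ ?_
  · intro u hu
    rw [co_dpart] at hu
    split_ifs at hu with h1
    · exact small u hu
    · exact absurd rfl hu
  · intro w s
    rw [comp_dpart, Fp_dpart]
    split_ifs with hs
    · subst hs
      rcases Nat.eq_zero_or_pos s with h0 | h0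
      · subst h0
        have : Fp 0 (H777R4.DM.comp w ψ) 0 = 0 := by
          apply al_ext
          intro v
          rw [co_Fp, H777R4.DM.co_zero]
          split_ifs with h1
          · rw [List.length_eq_zero_iff] at h1
            subst h1
            by_contra h2
            rw [H777R4.DM.co_comp] at h2
            split_ifs at h2 with h3
            · have := (small _ h2).1
              simp [wordX] at this
            · exact h2 rfl
          · rfl
        rw [this]
        exact H777R4.DM.prim_zero
      · refine grt_prim_all (isGRT_comp h w) h0 ?_ 0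
        intro u hu
        rw [H777R4.DM.co_comp] at hu
        split_ifs at hu with h3
        · exact hr u hu
        · exact absurd rfl hu
    · exact H777R4.DM.prim_zero

/-- the elements of `grt_1` of weight `N` and depth at least `r` -/
noncomputable def grtD (N r : ℕ) : Submodule ℚ A where
  carrier := {ψ | IsGRT ψ ∧ ∀ u, co ψ u ≠ 0 → u.length = N ∧ r ≤ u.count 1}
  add_mem' := by
    rintro f g ⟨hf, hf1⟩ ⟨hg, hg1⟩
    refine ⟨isGRT_add hf hg, fun u hu => ?_⟩
    rw [co_add] at hu
    by_cases h : co f u = 0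
    · exact hg1 u fun h' => hu (by rw [h, h', add_zero])
    · exact hf1 u h
  zero_mem' := ⟨isGRT_zero, fun u hu => absurd (co_zero u) hu⟩
  smul_mem' := by
    rintro c f ⟨hf, hf1⟩
    exact ⟨isGRT_smul hf c, fun u hu => hf1 u fun h' => hu (by rw [co_smul, h', mul_zero])⟩

/-- `gr_r grt_N`: the elements of weight `N` and depth at least `r` modulo those of depth at least
`r + 1` -/
abbrev grgrt (N r : ℕ) : Type := grtD N r ⧸ (grtD N (r + 1)).comap (grtD N r).subtype

/-- the leading part -/
theorem dpart_mem (N r : ℕ) (hN : r ≤ N) (ψ : A) (hψ : ψ ∈ grtD N r) : dpart r ψ ∈ ls r (N - r) := by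
  refine ⟨isLS_lead_grt hψ.1 (fun u hu => (hψ.2 u hu).2), fun u hu => ?_⟩
  rw [co_dpart] at hu
  split_ifs at hu with h1
  · have := (hψ.2 u hu).1
    exact ⟨by omega, h1⟩
  · exact absurd rfl hu

/-- the map from the graded piece to `ls` -/
noncomputable def grMap (N r : ℕ) (hN : r ≤ N) : grtD N r →ₗ[ℚ] ls r (N - r) :=
  LinearMap.codRestrict _ ((dpart r).domRestrict (grtD N r)) fun ψ => dpart_mem N r hN ψ.1 ψ.2

theorem ker_grMap (N r : ℕ) (hN : r ≤ N) :
    LinearMap.ker (grMap N r hN) = (grtD N (r + 1)).comap (grtD N r).subtype := by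
  ext ψ
  rw [LinearMap.mem_ker, Submodule.mem_comap, Submodule.subtype_apply]
  constructor
  · intro h
    have h1 : dpart r ψ.1 = 0 := congrArg Subtype.val h
    refine ⟨ψ.2.1, fun u hu => ⟨(ψ.2.2 u hu).1, ?_⟩⟩
    have h2 := (ψ.2.2 u hu).2
    rcases Nat.lt_or_ge r (u.count 1) with h3 | h3
    · exact h3
    · exfalso
      have h4 : u.count 1 = r := le_antisymm h3 h2
      have h5 := co_dpart r ψ.1 u
      rw [h1, co_zero, if_pos h4] at h5
      exact hu h5.symm
  · intro h
    apply Subtype.ext
    show dpart r ψ.1 = 0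
    apply al_ext
    intro u
    rw [co_dpart, co_zero]
    split_ifs with h1
    · by_contra h2
      have := (h.2 u h2).2
      omega
    · rfl

theorem grtD_eq_bot (N r : ℕ) (hN : N < r) : grtD N r = ⊥ := by
  rw [eq_bot_iff]
  intro ψ hψ
  rw [Submodule.mem_bot]
  by_contra h
  obtain ⟨u, hu⟩ := exists_co_ne h
  have h1 := hψ.2 u hu
  have h2 := List.count_le_length (a := (1 : Fin 2)) (l := u)
  omega

theorem finite_gr (N r : ℕ) (hr : 2 ≤ r) : Module.Finite ℚ (grgrt N r) := by
  rcases Nat.lt_or_ge N r with h | h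
  · have h1 := grtD_eq_bot N r h
    have h2 : Module.Finite ℚ (grtD N r) := by rw [h1]; infer_instance
    infer_instance
  · have h1 := finite_ls r (N - r) hr
    have h2 := ker_grMap N r h
    have e := (Submodule.quotEquivOfEq _ _ h2).symm.trans (grMap N r h).quotKerEquivRange
    exact Module.Finite.equiv e.symm

theorem gr_le (N r : ℕ) (hr : 2 ≤ r) :
    Module.finrank ℚ (grgrt N r) ≤ Module.finrank ℚ (ls r (N - r)) ∧
      (N < r → Module.finrank ℚ (grgrt N r) = 0) := by
  rcases Nat.lt_or_ge N r with h | h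
  · have h1 := grtD_eq_bot N r h
    have h2 : Module.finrank ℚ (grtD N r) = 0 := by rw [h1]; exact finrank_bot ℚ A
    have h3 : Module.Finite ℚ (grtD N r) := by rw [h1]; infer_instance
    have h4 : Module.finrank ℚ (grgrt N r) = 0 := by
      have h5 := Submodule.finrank_quotient_le ((grtD N (r + 1)).comap (grtD N r).subtype)
      rw [h2] at h5
      exact Nat.le_zero.mp h5
    exact ⟨by omega, fun _ => h4⟩
  · refine ⟨?_, fun h' => by omega⟩
    have h1 := finite_ls r (N - r) hr
    have h2 := ker_grMap N r h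
    have e := (Submodule.quotEquivOfEq _ _ h2).symm.trans (grMap N r h).quotKerEquivRange
    rw [e.finrank_eq]
    exact Submodule.finrank_le _

end Pool.Agent.H492.GT
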